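import Mathlib
import Pool.Agent.H473.CZ.Fin

set_option autoImplicit false

/-!
# Complex zeros, positivity and monotonicity of quadratic L-functions off an exponentially small set

Let `Λ(s,χ) = N^(s/2) Γ-factor L(s,χ)` be the completed L-function of a real primitive character
`χ` of conductor `N`; it is an entire function `F` of `w = (s - 1/2)^2`. The generalized Riemann
hypothesis says that all zeros of `F` are real and `≤ 0`; it implies that `F ≠ 0` and
`Re (F'/F) > 0` in the half plane `Re w > 0` and that `F` and all its derivatives are positive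
for `w > 0`. We prove, for all but a proportion `C exp (-c R)` of the characters of conductor at
most `X` (in every class with prescribed parity and prescribed values at finitely many primes), the
same for `Re w > (R / log X)^2`. Moreover `L(s,χ)` has no zero, real or complex, in the funnel
`|Re s - 1/2| ≥ R / log X`, `|Im s| ≤ T`, `|Im s| log X ≤ exp (a |Re s - 1/2| log X)`.
-/

namespace Pool.Agent.Results.MP_0016c7_nt.CompleteMonotonicity

/-- The pairs `(N, χ)` with `1 ≤ N ≤ X` and `χ` a nontrivial primitive quadratic Dirichlet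
character modulo `N` such that `χ(-1) = s` and `χ(p) = v p` for all `p ∈ S`. -/
def Class (S : Finset ℕ) (v : ℕ → ℤ) (s : ℤ) (X : ℕ) : Set (Σ N : ℕ, DirichletCharacter ℂ N) :=
  {p | p.1 ≠ 0 ∧ p.1 ≤ X ∧ p.2.IsPrimitive ∧ p.2 ^ 2 = 1 ∧ p.2 ≠ 1 ∧ p.2 (-1) = (s : ℂ) ∧
    ∀ q ∈ S, p.2 (q : ZMod p.1) = (v q : ℂ)}

/-- The part of the critical strip at distance at least `R / log X` from the critical line, of
height at most `T`, which opens exponentially around the real axis. -/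
def Funnel (X : ℕ) (R a T : ℝ) : Set ℂ :=
  {s | 0 < s.re ∧ s.re < 1 ∧ R ≤ |s.re - 1 / 2| * Real.log X ∧ |s.im| ≤ T ∧
    |s.im| * Real.log X ≤ Real.exp (a * (|s.re - 1 / 2| * Real.log X))}

/-- `L(s,χ)` has no zero in the funnel, and the completed L-function is an entire function `F` of
`w = (s - 1/2)^2` which behaves to the right of `(R / log X)^2` as under the generalized Riemann
hypothesis: `F ≠ 0` and `Re (F'/F) > 0` in the half plane, and `F` and all its derivatives are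
positive at the real points. -/
def Good (X : ℕ) (R a T : ℝ) (p : Σ N : ℕ, DirichletCharacter ℂ N) : Prop :=
  ∃ _ : NeZero p.1, (∀ s ∈ Funnel X R a T, DirichletCharacter.LFunction p.2 s ≠ 0) ∧
    ∃ F : ℂ → ℂ, Differentiable ℂ F ∧
      (∀ s : ℂ, F ((s - 1 / 2) ^ 2) =
        (p.1 : ℂ) ^ (s / 2) * DirichletCharacter.completedLFunction p.2 s) ∧
      (∀ w : ℂ, (R / Real.log X) ^ 2 < w.re → F w ≠ 0 ∧ 0 < (deriv F w / F w).re) ∧
      ∀ (k : ℕ) (x : ℝ), (R / Real.log X) ^ 2 < x →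
        (iteratedDeriv k F (x : ℂ)).im = 0 ∧ 0 < (iteratedDeriv k F (x : ℂ)).re

/-- **Theorem.** Let `S` be a finite set of primes, `v p ∈ {0, 1, -1}` for `p ∈ S` and
`s ∈ {1, -1}`. The class of the primitive quadratic characters `χ` with `χ(p) = v p` for `p ∈ S`
and `χ(-1) = s` has at least `κ X` members of conductor at most `X`, with some `κ > 0`, for all
large `X`. For every `T` there are `a, C, c > 0` such that for all `X ≥ 2` and
`0 ≤ R ≤ (log X) / 2` all but a proportion `C exp (-c R)` of them are good. -/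
theorem result (S : Finset ℕ) (hS : ∀ p ∈ S, p.Prime) (v : ℕ → ℤ)
    (hv : ∀ p ∈ S, v p = 0 ∨ v p = 1 ∨ v p = -1) (s : ℤ) (hs : s = 1 ∨ s = -1) :
    (∀ X : ℕ, (Class S v s X).Finite) ∧
    (∃ κ : ℝ, 0 < κ ∧ ∃ X0 : ℕ, ∀ X : ℕ, X0 ≤ X →
      κ * (X : ℝ) ≤ ((Class S v s X).ncard : ℝ)) ∧
    (∀ T : ℝ, ∃ a C c : ℝ, 0 < a ∧ 0 < C ∧ 0 < c ∧ ∀ (X : ℕ) (R : ℝ), 2 ≤ X → 0 ≤ R →
      R ≤ Real.log X / 2 → ((Class S v s X ∩ {p | ¬ Good X R a T p}).ncard : ℝ) ≤
        C * Real.exp (-(c * R)) * ((Class S v s X).ncard : ℝ)) := by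
  obtain ⟨h1, ⟨κ, N1, hκ, h2⟩, -⟩ := Pool.Agent.W161.LF.mainA S hS v hv s hs
  have e1 : ∀ X : ℕ, Class S v s X = Pool.Agent.H306R2.RG.LnkC.RPC ∩
      (Pool.Agent.W161.LF.CL S v s ∩ {p | p.1 ≤ X}) := by
    intro X
    ext p
    simp only [Class, Pool.Agent.H306R2.RG.LnkC.RPC, Pool.Agent.W161.LF.CL, Set.mem_inter_iff,
      Set.mem_ofPred_eq]
    tauto
  have hfin : ∀ X : ℕ, (Class S v s X).Finite := fun X => by rw [e1]; exact h1 X
  refine ⟨hfin, ⟨κ, hκ, N1, fun X hX => by rw [e1]; exact h2 X hX⟩, fun T => ?_⟩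
  obtain ⟨a, K, C, c, ha, -, hC, hc, h⟩ :=
    Pool.Agent.H473.CZ.cls_final S hS v hv s hs T 0 le_rfl
  refine ⟨a, C, c, ha, hC, hc, fun X R hX hR hRX => ?_⟩
  have h3 := h X R hX hR hRX
  rw [← e1] at h3
  refine le_trans ?_ h3
  have hsub : Class S v s X ∩ {p | ¬ Good X R a T p} ⊆
      Class S v s X ∩ {p | ¬ Pool.Agent.H473.CZ.GoodX X R a T 0 K p} := by
    rintro p ⟨hp, hbad⟩
    refine ⟨hp, fun hg => hbad ?_⟩
    obtain ⟨hN, g1, g2, -⟩ := hg
    have hrpc : p ∈ Pool.Agent.H306R2.RG.LnkC.RPC := by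
      rw [e1] at hp
      exact hp.1
    obtain ⟨F, f1, f2, f3, f4⟩ := Pool.Agent.H473.CZ.abs_of hrpc (W := (R / Real.log X) ^ 2)
      (by positivity) g2
    exact ⟨hN, fun z hz => g1 z hz.1 hz.2.1 hz.2.2.1 hz.2.2.2.1 hz.2.2.2.2, F, f1, f2, f3, f4⟩
  exact_mod_cast Set.ncard_le_ncard hsub ((hfin X).inter_of_left _)

end Pool.Agent.Results.MP_0016c7_nt.CompleteMonotonicity
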