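import Mathlib
import Pool.Agent.H473.CZ.PrimeFin

set_option autoImplicit false

/-!
# Zeros of quadratic L-functions of prime conductor near the real axis

The eight families of the primitive quadratic characters `χ` of conductor `q`, `4 q` or `8 q`, with
`q` an odd prime, and prescribed `χ(-1)` and `χ(2)` (the fundamental discriminants `±q`, `±4q`,
`±8q` in the classes modulo `8`). For every `T` there are `a, C, c > 0` such that for all but a
proportion `C exp (-c R)` of the characters of the family of conductor at most `X` the L-function has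
no zero, real or complex, in the part `|Re s - 1/2| ≥ R / log X`, `|Im s| ≤ T`,
`|Im s| log X ≤ exp (a |Re s - 1/2| log X)` of the critical strip, and the completed L-function, an
entire function `F` of `w = (s - 1/2)^2`, satisfies `F ≠ 0`, `Re (F'/F) > 0` for
`Re w > (R / log X)^2` and has positive derivatives of all orders at the real points
`w > (R / log X)^2`, as it has under the generalized Riemann hypothesis.
-/

namespace Pool.Agent.Results.MP_0016c7_nt.PrimeConductors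

/-- The admissible data of the eight families: conductor `r q`, `χ(-1) = s`, `χ(2) = u`. -/
def Admissible (r : ℕ) (s u : ℤ) : Prop :=
  (s = 1 ∨ s = -1) ∧ ((r = 1 ∧ (u = 1 ∨ u = -1)) ∨ ((r = 4 ∨ r = 8) ∧ u = 0))

/-- The pairs `(N, χ)` with `1 ≤ N ≤ X`, `N = r q` with an odd prime `q`, and `χ` a nontrivial
primitive quadratic Dirichlet character modulo `N` such that `χ(-1) = s` and `χ(2) = u`. -/
def Class (r : ℕ) (s u : ℤ) (X : ℕ) : Set (Σ N : ℕ, DirichletCharacter ℂ N) :=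
  {p | p.1 ≠ 0 ∧ p.1 ≤ X ∧ (∃ q : ℕ, q.Prime ∧ q ≠ 2 ∧ p.1 = r * q) ∧
    p.2.IsPrimitive ∧ p.2 ^ 2 = 1 ∧ p.2 ≠ 1 ∧ p.2 (-1) = (s : ℂ) ∧
    p.2 ((2 : ℕ) : ZMod p.1) = (u : ℂ)}

/-- The part of the critical strip at distance at least `R / log X` from the critical line, of
height at most `T`, which opens exponentially around the real axis. -/
def Funnel (X : ℕ) (R a T : ℝ) : Set ℂ :=
  {s | 0 < s.re ∧ s.re < 1 ∧ R ≤ |s.re - 1 / 2| * Real.log X ∧ |s.im| ≤ T ∧
    |s.im| * Real.log X ≤ Real.exp (a * (|s.re - 1 / 2| * Real.log X))}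

/-- `L(s,χ)` has no zero in the funnel, and the completed L-function is an entire function `F` of
`w = (s - 1/2)^2` which behaves to the right of `(R / log X)^2` as under the generalized Riemann
hypothesis: `F ≠ 0` and `Re (F'/F) > 0` in the half plane, and `F` and all its derivatives are
positive at the real points. -/
def Good (X : ℕ) (R a T : ℝ) (p : Σ N : ℕ, DirichletCharacter ℂ N) : Prop :=
  ∃ _ : NeZero p.1, (∀ s ∈ Funnel X R a T, DirichletCharacter.LFunction p.2 s ≠ 0) ∧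
    ∃ F : ℂ → ℂ, Differentiable ℂ F ∧
      (∀ s : ℂ, F ((s - 1 / 2) ^ 2) =
        (p.1 : ℂ) ^ (s / 2) * DirichletCharacter.completedLFunction p.2 s) ∧
      (∀ w : ℂ, (R / Real.log X) ^ 2 < w.re → F w ≠ 0 ∧ 0 < (deriv F w / F w).re) ∧
      ∀ (k : ℕ) (x : ℝ), (R / Real.log X) ^ 2 < x →
        (iteratedDeriv k F (x : ℂ)).im = 0 ∧ 0 < (iteratedDeriv k F (x : ℂ)).re

/-- **Theorem.** Each of the eight families has at least `κ X / log X` members of conductor at most
`X`, with some `κ > 0`, for all large `X`. For every `T` there are `a, C, c > 0` such that for all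
`X ≥ 2` and `0 ≤ R ≤ (log X) / 2` all but a proportion `C exp (-c R)` of them are good. -/
theorem result (r : ℕ) (s u : ℤ) (h : Admissible r s u) :
    (∀ X : ℕ, (Class r s u X).Finite) ∧
    (∃ κ : ℝ, 0 < κ ∧ ∃ X0 : ℕ, ∀ X : ℕ, X0 ≤ X →
      κ * ((X : ℝ) / Real.log X) ≤ ((Class r s u X).ncard : ℝ)) ∧
    (∀ T : ℝ, ∃ a C c : ℝ, 0 < a ∧ 0 < C ∧ 0 < c ∧ ∀ (X : ℕ) (R : ℝ), 2 ≤ X → 0 ≤ R →
      R ≤ Real.log X / 2 → ((Class r s u X ∩ {p | ¬ Good X R a T p}).ncard : ℝ) ≤
        C * Real.exp (-(c * R)) * ((Class r s u X).ncard : ℝ)) := by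
  obtain ⟨φ, hφ, hD⟩ := Pool.Agent.H473.CZ.dt_ex (r := r) (s := s) (u := u) h
  have e1 : ∀ X : ℕ, Class r s u X = Pool.Agent.H473.CZ.PCl r s u ∩ {p | p.1 ≤ X} := by
    intro X
    ext p
    simp only [Class, Pool.Agent.H473.CZ.PCl, Pool.Agent.H306R2.RG.LnkC.RPC, Set.mem_inter_iff,
      Set.mem_ofPred_eq]
    tauto
  have hfin : ∀ X : ℕ, (Class r s u X).Finite := by
    intro X
    have h1 := Pool.Agent.H473.CZ.pcl_fin hφ hD (X : ℝ)
    have e : ({p | ((p.1 : ℕ) : ℝ) ≤ (X : ℝ)} : Set (Σ N : ℕ, DirichletCharacter ℂ N)) =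
        {p | p.1 ≤ X} := by
      ext p; simp
    rw [e] at h1
    rw [e1]
    exact h1
  refine ⟨hfin, ?_, fun T => ?_⟩
  · obtain ⟨κ, N, hκ, h2⟩ := Pool.Agent.H473.CZ.pcl_low hφ hD
    exact ⟨κ, hκ, N, fun X hX => by rw [e1]; exact h2 X hX⟩
  obtain ⟨a, K, C, c, ha, -, hC, hc, h⟩ :=
    Pool.Agent.H473.CZ.prime_prop hφ hD T 0 le_rfl
  refine ⟨a, C, c, ha, hC, hc, fun X R hX hR hRX => ?_⟩
  have h3 := h X R hX hR hRX
  rw [← e1] at h3
  refine le_trans ?_ h3
  have hsub : Class r s u X ∩ {p | ¬ Good X R a T p} ⊆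
      Class r s u X ∩ {p | ¬ Pool.Agent.H473.CZ.GoodX X R a T 0 K p} := by
    rintro p ⟨hp, hbad⟩
    refine ⟨hp, fun hg => hbad ?_⟩
    obtain ⟨hN, g1, g2, -⟩ := hg
    have hrpc : p ∈ Pool.Agent.H306R2.RG.LnkC.RPC := by
      rw [e1] at hp
      exact hp.1.1
    obtain ⟨F, f1, f2, f3, f4⟩ := Pool.Agent.H473.CZ.abs_of hrpc (W := (R / Real.log X) ^ 2)
      (by positivity) g2
    exact ⟨hN, fun z hz => g1 z hz.1 hz.2.1 hz.2.2.1 hz.2.2.2.1 hz.2.2.2.2, F, f1, f2, f3, f4⟩
  exact_mod_cast Set.ncard_le_ncard hsub ((hfin X).inter_of_left _)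

end Pool.Agent.Results.MP_0016c7_nt.PrimeConductors
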