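import Mathlib
import Pool.Agent.H473.CT.Trum

set_option autoImplicit false

/-!
# A zero-free neighbourhood of the whole segment `(0,1)` for 87.3 percent of the quadratic L-functions

In every class of primitive quadratic characters `χ` with prescribed parity and prescribed values at
finitely many primes, for at least 87.3 percent of the characters of conductor at most `X` the
function `L(s,χ)` has no zero, real or complex, in a trumpet around the whole real segment `(0,1)`:
the part `|Im s| ≤ T`, `|Im s| log X ≤ η exp (a |Re s - 1/2| log X)` of the critical strip. Its width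
is `η / log X` (the order of the mean spacing of the zeros) at the central point, which is included,
and grows exponentially on both sides, to the full width `T` at the distance `C log log X / log X`.
In particular `L(1/2,χ) ≠ 0` and `L(s,χ) > 0` on `(0,1)`.
-/

namespace Pool.Agent.Results.MP_0016c7_nt.ZeroFreeTrumpet

/-- The pairs `(N, χ)` with `1 ≤ N ≤ X` and `χ` a nontrivial primitive quadratic Dirichlet
character modulo `N` such that `χ(-1) = s` and `χ(p) = v p` for all `p ∈ S`. -/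
def Class (S : Finset ℕ) (v : ℕ → ℤ) (s : ℤ) (X : ℕ) : Set (Σ N : ℕ, DirichletCharacter ℂ N) :=
  {p | p.1 ≠ 0 ∧ p.1 ≤ X ∧ p.2.IsPrimitive ∧ p.2 ^ 2 = 1 ∧ p.2 ≠ 1 ∧ p.2 (-1) = (s : ℂ) ∧
    ∀ q ∈ S, p.2 (q : ZMod p.1) = (v q : ℂ)}

/-- The part of the critical strip, of height at most `T`, which opens exponentially on both sides
of the central point, with the half width `η / log X` at the central point. -/
def Trumpet (X : ℕ) (η a T : ℝ) : Set ℂ :=
  {s | 0 < s.re ∧ s.re < 1 ∧ |s.im| ≤ T ∧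
    |s.im| * Real.log X ≤ η * Real.exp (a * (|s.re - 1 / 2| * Real.log X))}

/-- `L(s,χ)` has no zero in the trumpet. -/
def ZeroFree (X : ℕ) (η a T : ℝ) (p : Σ N : ℕ, DirichletCharacter ℂ N) : Prop :=
  ∃ _ : NeZero p.1, ∀ s ∈ Trumpet X η a T, DirichletCharacter.LFunction p.2 s ≠ 0

/-- **Theorem.** Let `S` be a finite set of primes, `v p ∈ {0, 1, -1}` for `p ∈ S` and
`s ∈ {1, -1}`. The class of the primitive quadratic characters `χ` with `χ(p) = v p` for `p ∈ S`
and `χ(-1) = s` has at least `κ X` members of conductor at most `X`, with some `κ > 0`, for all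
large `X`. For every `T` there are `η, a > 0` such that for all large `X` at least 87.3 percent of them
have an L-function without zeros in the trumpet with the parameters `η, a, T`. -/
theorem result (S : Finset ℕ) (hS : ∀ p ∈ S, p.Prime) (v : ℕ → ℤ)
    (hv : ∀ p ∈ S, v p = 0 ∨ v p = 1 ∨ v p = -1) (s : ℤ) (hs : s = 1 ∨ s = -1) :
    (∀ X : ℕ, (Class S v s X).Finite) ∧
    (∃ κ : ℝ, 0 < κ ∧ ∃ X0 : ℕ, ∀ X : ℕ, X0 ≤ X →
      κ * (X : ℝ) ≤ ((Class S v s X).ncard : ℝ)) ∧
    (∀ T : ℝ, ∃ η a : ℝ, 0 < η ∧ 0 < a ∧ ∃ X0 : ℕ, ∀ X : ℕ, X0 ≤ X →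
      873 / 1000 * ((Class S v s X).ncard : ℝ) ≤
        ((Class S v s X ∩ {p | ZeroFree X η a T p}).ncard : ℝ)) := by
  obtain ⟨h1, ⟨κ, N1, hκ, h2⟩, -⟩ := Pool.Agent.W161.LF.mainA S hS v hv s hs
  have e1 : ∀ X : ℕ, Class S v s X = Pool.Agent.H306R2.RG.LnkC.RPC ∩
      (Pool.Agent.W161.LF.CL S v s ∩ {p | p.1 ≤ X}) := by
    intro X
    ext p
    simp only [Class, Pool.Agent.H306R2.RG.LnkC.RPC, Pool.Agent.W161.LF.CL, Set.mem_inter_iff,
      Set.mem_ofPred_eq]
    tauto
  have hfin : ∀ X : ℕ, (Class S v s X).Finite := fun X => by rw [e1]; exact h1 X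
  refine ⟨hfin, ⟨κ, hκ, N1, fun X hX => by rw [e1]; exact h2 X hX⟩, fun T => ?_⟩
  obtain ⟨η, a, hη, ha, N, h⟩ := Pool.Agent.H473.CT.trumpet S hS v hv s hs T
  refine ⟨η, a, hη, ha, N, fun X hX => ?_⟩
  have h3 := h X hX
  have e2 : Pool.Agent.H306R2.RG.LnkC.RPC ∩ ((Pool.Agent.W161.LF.CL S v s ∩ {p | p.1 ≤ X}) ∩
      {p | ¬ Pool.Agent.H473.CT.TR X η a T p}) =
      Class S v s X ∩ {p | ¬ Pool.Agent.H473.CT.TR X η a T p} := by
    rw [e1]
    exact (Set.inter_assoc _ _ _).symm
  rw [e2, ← e1] at h3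
  have hcov : Class S v s X ⊆ (Class S v s X ∩ {p | ZeroFree X η a T p}) ∪
      (Class S v s X ∩ {p | ¬ Pool.Agent.H473.CT.TR X η a T p}) := by
    intro p hp
    by_cases hT : Pool.Agent.H473.CT.TR X η a T p
    · left
      obtain ⟨hN, g⟩ := hT
      exact ⟨hp, hN, fun z hz => g z hz.1 hz.2.1 hz.2.2.1 hz.2.2.2⟩
    · exact Or.inr ⟨hp, hT⟩
  have h4 := (Set.ncard_le_ncard hcov (((hfin X).inter_of_left _).union
    ((hfin X).inter_of_left _))).trans (Set.ncard_union_le _ _)
  have h5 : ((Class S v s X).ncard : ℝ) ≤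
      ((Class S v s X ∩ {p | ZeroFree X η a T p}).ncard : ℝ) +
      ((Class S v s X ∩ {p | ¬ Pool.Agent.H473.CT.TR X η a T p}).ncard : ℝ) := by
    exact_mod_cast h4
  linarith

end Pool.Agent.Results.MP_0016c7_nt.ZeroFreeTrumpet
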