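import Mathlib
import Pool.Agent.H473.CZ.ExpM

set_option autoImplicit false

/-!
# Exponential moments of the number of zeros of quadratic L-functions near the real axis

For the primitive quadratic characters `χ` of conductor at most `X` (with prescribed parity and
prescribed values at finitely many primes) let `n(χ)` be the number of the zeros of `L(s,χ)` in the
critical strip with `|Im s| ≤ A / log X + κ |Re s - 1/2|`, with multiplicities: a box around the
whole segment `(0,1)` together with a double cone with vertex `1/2`. For every `κ` there are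
`C, c > 0` such that the mean of `exp (c n(χ))` is at most `C exp (C A)`.
-/

namespace Pool.Agent.Results.MP_0016c7_nt.ZeroMoments

/-- The pairs `(N, χ)` with `1 ≤ N ≤ X` and `χ` a nontrivial primitive quadratic Dirichlet
character modulo `N` such that `χ(-1) = s` and `χ(p) = v p` for all `p ∈ S`. -/
def Class (S : Finset ℕ) (v : ℕ → ℤ) (s : ℤ) (X : ℕ) : Set (Σ N : ℕ, DirichletCharacter ℂ N) :=
  {p | p.1 ≠ 0 ∧ p.1 ≤ X ∧ p.2.IsPrimitive ∧ p.2 ^ 2 = 1 ∧ p.2 ≠ 1 ∧ p.2 (-1) = (s : ℂ) ∧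
    ∀ q ∈ S, p.2 (q : ZMod p.1) = (v q : ℂ)}

/-- The points of the open critical strip with `|Im s| ≤ A / log X + κ |Re s - 1/2|`. -/
def Region (X : ℕ) (A κ : ℝ) : Set ℂ :=
  {s | 0 < s.re ∧ s.re < 1 ∧ |s.im| * Real.log X ≤ A + κ * (|s.re - 1 / 2| * Real.log X)}

/-- The number of the zeros of `L(s,χ)` in `U`, counted with multiplicity: the sum of the orders of
vanishing at the points of `U`. -/
noncomputable def zeros (U : Set ℂ) (p : Σ N : ℕ, DirichletCharacter ℂ N) : ℕ :=
  open Classical in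
  if h : p.1 ≠ 0 then
    haveI : NeZero p.1 := ⟨h⟩
    ∑ᶠ s ∈ U, analyticOrderNatAt (DirichletCharacter.LFunction p.2) s
  else 0

/-- **Theorem.** Let `S` be a finite set of primes, `v p ∈ {0, 1, -1}` for `p ∈ S`,
`s ∈ {1, -1}` and `κ ≥ 0`. There are `C, c > 0` such that for all `X ≥ 2` and `0 ≤ A ≤ log X` the
L-functions of the class have finitely many zeros in the region, and the mean of
`exp (c · number of zeros in the region)` over the class is at most `C exp (C A)`. -/
theorem result (S : Finset ℕ) (hS : ∀ p ∈ S, p.Prime) (v : ℕ → ℤ)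
    (hv : ∀ p ∈ S, v p = 0 ∨ v p = 1 ∨ v p = -1) (s : ℤ) (hs : s = 1 ∨ s = -1)
    (κ : ℝ) (hκ : 0 ≤ κ) :
    (∀ X : ℕ, (Class S v s X).Finite) ∧
    (∃ κ0 : ℝ, 0 < κ0 ∧ ∃ X0 : ℕ, ∀ X : ℕ, X0 ≤ X →
      κ0 * (X : ℝ) ≤ ((Class S v s X).ncard : ℝ)) ∧
    ∃ C c : ℝ, 0 < C ∧ 0 < c ∧ ∀ X : ℕ, 2 ≤ X → ∀ A : ℝ, 0 ≤ A → A ≤ Real.log X →
      (∀ p ∈ Class S v s X, ∀ _ : NeZero p.1,
        (Region X A κ ∩ {z | DirichletCharacter.LFunction p.2 z = 0}).Finite) ∧
      ∑ᶠ p ∈ Class S v s X, Real.exp (c * zeros (Region X A κ) p) ≤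
        C * Real.exp (C * A) * ((Class S v s X).ncard : ℝ) := by
  classical
  obtain ⟨h1, ⟨κ0, N1, hκ0, h2⟩, -⟩ := Pool.Agent.W161.LF.mainA S hS v hv s hs
  have e1 : ∀ X : ℕ, Class S v s X = Pool.Agent.H306R2.RG.LnkC.RPC ∩
      (Pool.Agent.W161.LF.CL S v s ∩ {p | p.1 ≤ X}) := by
    intro X
    ext p
    simp only [Class, Pool.Agent.H306R2.RG.LnkC.RPC, Pool.Agent.W161.LF.CL, Set.mem_inter_iff,
      Set.mem_ofPred_eq]
    tauto
  have hfin : ∀ X : ℕ, (Class S v s X).Finite := fun X => by rw [e1]; exact h1 X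
  refine ⟨hfin, ⟨κ0, hκ0, N1, fun X hX => by rw [e1]; exact h2 X hX⟩, ?_⟩
  obtain ⟨a, K0, C0, c0, ha, hK0, hC0, hc0, h⟩ :=
    Pool.Agent.H473.CZ.cls_final S hS v hv s hs 1 κ hκ
  obtain ⟨Cd, hCd, hdet⟩ := Pool.Agent.H473.CZ.det_box (1 + κ) (by positivity)
  set K : ℝ := K0 + 2 * Cd with hK
  have hKp : 0 < K := by positivity
  set Cf : ℝ := (Real.exp c0 + C0 * Real.exp (c0 / 2) * (1 - Real.exp (-(c0 / 2)))⁻¹) + c0 / 2
    with hCf
  have hr1 : Real.exp (-(c0 / 2)) < 1 := by
    rw [Real.exp_lt_one_iff]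
    linarith
  have hCf1 : 0 < Real.exp c0 + C0 * Real.exp (c0 / 2) * (1 - Real.exp (-(c0 / 2)))⁻¹ := by
    have : 0 < 1 - Real.exp (-(c0 / 2)) := by linarith
    positivity
  refine ⟨Cf, c0 / (2 * K), by positivity, by positivity, fun X hX A hA hAX => ?_⟩
  have hX2 : (2 : ℝ) ≤ (X : ℝ) := by exact_mod_cast hX
  have hlog : 0 < Real.log X := Real.log_pos (by linarith)
  -- the deterministic bound
  have hD : ∀ p ∈ Class S v s X, ∀ _ : NeZero p.1, ∀ Z : Finset ℂ, (∀ z ∈ Z, z ∈ Region X A κ) →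
      ((∑ z ∈ Z, analyticOrderNatAt (DirichletCharacter.LFunction p.2) z : ℕ) : ℝ) ≤
        K * (Real.log X / 2) := by
    intro p hp hN Z hZ
    have hrpc : p ∈ Pool.Agent.H306R2.RG.LnkC.RPC := by
      rw [e1] at hp
      exact hp.1
    obtain ⟨hN', q1, q2, q3, -, -⟩ := Pool.Agent.H473.CZ.rpc_facts hrpc
    have h3 := hdet p.1 p.2 q1 q2 q3 Z (by
      intro z hz
      obtain ⟨b1, b2, b3⟩ := hZ z hz
      refine ⟨b1, b2, ?_⟩
      have h4 : |z.re - 1 / 2| ≤ 1 / 2 := abs_le.2 ⟨by linarith, by linarith⟩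
      have h5 : |z.re - 1 / 2| * Real.log X ≤ 1 / 2 * Real.log X :=
        mul_le_mul_of_nonneg_right h4 hlog.le
      have h6 : |z.im| * Real.log X ≤ (1 + κ) * Real.log X := by nlinarith
      exact le_of_mul_le_mul_right h6 hlog)
    refine h3.trans ?_
    have hp0 : (0 : ℝ) < p.1 := by exact_mod_cast (by omega : 0 < p.1)
    have hpX : (p.1 : ℝ) ≤ X := by exact_mod_cast hp.2.1
    have h4 : Real.log p.1 ≤ Real.log X := Real.log_le_log hp0 hpX
    have h5 := mul_le_mul_of_nonneg_left h4 hCd.le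
    rw [hK]
    nlinarith
  have hzero : ∀ p ∈ Class S v s X, ∀ _ : NeZero p.1, ∀ z : ℂ,
      DirichletCharacter.LFunction p.2 z = 0 →
      analyticOrderNatAt (DirichletCharacter.LFunction p.2) z ≠ 0 := by
    intro p hp hN z hz
    have hne : p.2 ≠ 1 := hp.2.2.2.2.1
    have hd := DirichletCharacter.differentiable_LFunction hne
    have han : AnalyticOnNhd ℂ (DirichletCharacter.LFunction p.2) Set.univ :=
      fun w _ => hd.analyticAt w
    have htop : analyticOrderAt (DirichletCharacter.LFunction p.2) z ≠ ⊤ := by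
      intro htop
      rw [analyticOrderAt_eq_top] at htop
      have h6 : AnalyticOnNhd ℂ (fun _ : ℂ => (0 : ℂ)) Set.univ := fun w _ => analyticAt_const
      have h7 := han.eq_of_eventuallyEq h6 htop
      exact DirichletCharacter.LFunction_ne_zero_of_one_le_re p.2 (Or.inl hne)
        (s := 2) (by norm_num) (congrFun h7 2)
    intro h0
    have h3 : analyticOrderAt (DirichletCharacter.LFunction p.2) z = 0 := by
      rw [← Nat.cast_analyticOrderNatAt htop, h0]
      rfl
    exact ((hd.analyticAt z).analyticOrderAt_eq_zero.1 h3) hz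
  have hcount : ∀ p ∈ Class S v s X, ∀ B : ℝ, (∀ _ : NeZero p.1, ∀ Z : Finset ℂ,
      (∀ z ∈ Z, z ∈ Region X A κ) →
      ((∑ z ∈ Z, analyticOrderNatAt (DirichletCharacter.LFunction p.2) z : ℕ) : ℝ) ≤ B) →
      (zeros (Region X A κ) p : ℝ) ≤ B := by
    intro p hp B hB
    have hN : p.1 ≠ 0 := hp.1
    unfold zeros
    rw [dif_pos hN]
    exact (Pool.Agent.H473.CZ.fin_sup _ _ (hB ⟨hN⟩)).2
  constructor
  · intro p hp hN
    refine (Pool.Agent.H473.CZ.fin_sup _ _ (hD p hp hN)).1.subset ?_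
    rintro z ⟨hz1, hz2⟩
    exact ⟨hz1, hzero p hp hN z hz2⟩
  -- the moments
  have hmain := Pool.Agent.H473.CZ.exp_mom (hfin X).toFinset (zeros (Region X A κ)) hA hKp hC0 hc0
    (M := Real.log X / 2) (fun p hp => by
      rw [Set.Finite.mem_toFinset] at hp
      exact hcount p hp _ (hD p hp)) (by
      intro j hj1 hj2
      have h3 := h X j hX (Nat.cast_nonneg j) hj2
      rw [← e1] at h3
      have e2 : ((hfin X).toFinset.card : ℝ) = ((Class S v s X).ncard : ℝ) := by
        rw [Set.ncard_eq_toFinset_card _ (hfin X)]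
      rw [e2]
      refine le_trans ?_ h3
      have hsub : (((hfin X).toFinset.filter fun p =>
          K * j < zeros (Region X A κ) p : Finset _) : Set _) ⊆
          Class S v s X ∩ {p | ¬ Pool.Agent.H473.CZ.GoodX X j a 1 κ K0 p} := by
        intro p hp
        rw [Finset.mem_coe, Finset.mem_filter, Set.Finite.mem_toFinset] at hp
        refine ⟨hp.1, fun hg => ?_⟩
        obtain ⟨hN, -, -, g3⟩ := hg
        have h4 := hcount p hp.1 (K0 * j) (fun _ Z hZ => g3 Z (fun z hz => by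
          obtain ⟨b1, b2, b3⟩ := hZ z hz
          exact ⟨b1, b2, b3.trans (by linarith)⟩))
        have h5 : K0 * (j : ℝ) ≤ K * j := by
          apply mul_le_mul_of_nonneg_right _ (Nat.cast_nonneg j)
          rw [hK]
          linarith
        linarith [hp.2]
      have h4 := Set.ncard_le_ncard hsub ((hfin X).inter_of_left _)
      rw [Set.ncard_coe_finset] at h4
      exact_mod_cast h4)
  have e2 : ((hfin X).toFinset.card : ℝ) = ((Class S v s X).ncard : ℝ) := by
    rw [Set.ncard_eq_toFinset_card _ (hfin X)]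
  rw [e2] at hmain
  rw [finsum_mem_eq_finite_toFinset_sum _ (hfin X)]
  refine hmain.trans ?_
  apply mul_le_mul_of_nonneg_right _ (Nat.cast_nonneg _)
  apply mul_le_mul (by linarith) _ (Real.exp_pos _).le (by positivity)
  apply Real.exp_le_exp.2
  apply mul_le_mul_of_nonneg_right _ hA
  linarith

end Pool.Agent.Results.MP_0016c7_nt.ZeroMoments
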